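import Pool.Agent.Lib.MP_eeed5c_co_N.Defs

/-!
# The exact identity for `Dp`

PROOFS. `step_WW`: `step_exact`, `D_insert`, `sum_paths` (`Step.lean`). For `a ∈ free N`, `b ∈ nb a`,
`v ∈ (nb a).erase b`: `D (insert) v = D v - 1 - [v ~ b]`, so
`w (D (insert) v) = w (D v - 1) + (if v ~ b then w (D v - 2) - w (D v - 1) else 0)`. The first part sums to
`∑ a ∑ v ∈ nb a, (D a - 1) w (D v - 1)` (`sum_paths`), and
`Phi G i (d (d-1) w(d-1)) = ∑ a ∑ v ∈ nb a, (D a - 1) w (D a - 1)`; the difference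
`∑ a ∑ v ∈ nb a, (D a - 1) (w (D v - 1) - w (D a - 1))` is, by `sum_nb_comm` (exchange `a`, `v` and take the mean),
`∑ a ∑ v ∈ nb a, 1/2 (D a - D v) (w (D v - 1) - w (D a - 1)) = ∑ u ∑ v phi1`. The second part: the triples
`(a, b, v)`, all in `free N`, pairwise adjacent, give `∑ v phi2` (for fixed `v`: `a ∈ nb v`, `b ∈ nb v`, `a ~ b`;
`v ≠ b` is automatic).

`WW_nonneg`: each `phi1`, `phi2` is nonnegative because `w` is nonincreasing (`w (a+1) ≤ w a`, so antitone).
-/

set_option autoImplicit false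

namespace Pool.Agent.Lib.MP_eeed5c_coN

open Finset Pool.Agent.Lib.MP_eeed5c_co Pool.Agent.Lib.MP_eeed5c_coT Pool.Agent.Lib.MP_eeed5c_coU

section

variable {V : Type*} [Fintype V] {G : SimpleGraph V}

private theorem TB1_phi1 (w : ℕ → ℝ) (N : Finset (Sym2 V)) :
    ∑ u, ∑ v, phi1 G w u v N = ∑ a ∈ free N, ∑ v ∈ nb G N a,
      (1 / 2) * (((D G N a : ℕ) : ℝ) - (D G N v : ℕ)) * (w (D G N v - 1) - w (D G N a - 1)) := by
  classical
  rw [← Finset.sum_subset (Finset.subset_univ (free N))]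
  · refine Finset.sum_congr rfl fun a ha => ?_
    rw [← Finset.sum_subset (Finset.subset_univ (nb G N a))]
    · refine Finset.sum_congr rfl fun v hv => ?_
      unfold phi1
      rw [if_pos ⟨ha, (mem_nb.1 hv).1, (mem_nb.1 hv).2⟩]
    · intro v _ hv
      unfold phi1
      rw [if_neg]
      rintro ⟨_, h2, h3⟩
      exact hv (mem_nb.2 ⟨h2, h3⟩)
  · intro a _ ha
    refine Finset.sum_eq_zero fun v _ => ?_
    unfold phi1
    rw [if_neg]
    rintro ⟨h1, _, _⟩
    exact ha h1

open scoped Classical in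
private theorem TB1_phi2 (w : ℕ → ℝ) (N : Finset (Sym2 V)) :
    ∑ v, phi2 G w v N = ∑ v ∈ free N, ∑ a ∈ nb G N v, ∑ b ∈ nb G N v,
      (if G.Adj a b then w (D G N v - 2) - w (D G N v - 1) else 0) := by
  rw [← Finset.sum_subset (Finset.subset_univ (free N))]
  · refine Finset.sum_congr rfl fun v hv => ?_
    unfold phi2
    rw [if_pos hv, Finset.sum_mul]
    refine Finset.sum_congr rfl fun a _ => ?_
    rw [Finset.card_filter, Nat.cast_sum, Finset.sum_mul]
    refine Finset.sum_congr rfl fun b _ => ?_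
    by_cases h : G.Adj a b
    · rw [if_pos h, if_pos h, Nat.cast_one, one_mul]
    · rw [if_neg h, if_neg h, Nat.cast_zero, zero_mul]
  · intro v _ hv
    unfold phi2
    rw [if_neg hv]

open scoped Classical in
private theorem TB1_step (w : ℕ → ℝ) (N : Finset (Sym2 V)) :
    (∑ a ∈ free N, ∑ b ∈ nb G N a, ∑ v ∈ (nb G N a).erase b, w (D G (insert s(a, b) N) v)) -
      ∑ v ∈ free N, (D G N v : ℝ) * (D G N v - 1) * w (D G N v - 1) = WW G w N := by
  have e1 : ∑ a ∈ free N, ∑ b ∈ nb G N a, ∑ v ∈ (nb G N a).erase b, w (D G (insert s(a, b) N) v) =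
      (∑ a ∈ free N, ∑ b ∈ nb G N a, ∑ v ∈ (nb G N a).erase b, w (D G N v - 1)) +
      ∑ a ∈ free N, ∑ b ∈ nb G N a, ∑ v ∈ (nb G N a).erase b,
        (if G.Adj v b then w (D G N v - 2) - w (D G N v - 1) else 0) := by
    rw [← Finset.sum_add_distrib]
    refine Finset.sum_congr rfl fun a ha => ?_
    rw [← Finset.sum_add_distrib]
    refine Finset.sum_congr rfl fun b hb => ?_
    rw [← Finset.sum_add_distrib]
    refine Finset.sum_congr rfl fun v hv => ?_
    have h1 := D_insert ha hb hv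
    by_cases h : G.Adj v b
    · rw [if_pos h] at h1
      rw [if_pos h]
      have h2 : D G (insert s(a, b) N) v = D G N v - 2 := by omega
      rw [h2]
      ring
    · rw [if_neg h] at h1
      rw [if_neg h]
      have h2 : D G (insert s(a, b) N) v = D G N v - 1 := by omega
      rw [h2, add_zero]
  have e2 : ∑ a ∈ free N, ∑ b ∈ nb G N a, ∑ v ∈ (nb G N a).erase b, w (D G N v - 1) =
      ∑ a ∈ free N, ∑ v ∈ nb G N a, ((D G N a : ℝ) - 1) * w (D G N v - 1) :=
    sum_paths N (fun v => w (D G N v - 1))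
  have e3 : ∑ v ∈ free N, (D G N v : ℝ) * (D G N v - 1) * w (D G N v - 1) =
      ∑ a ∈ free N, ∑ v ∈ nb G N a, ((D G N a : ℝ) - 1) * w (D G N a - 1) := by
    refine Finset.sum_congr rfl fun a _ => ?_
    rw [Finset.sum_const, nsmul_eq_mul]
    unfold D
    ring
  have e4 : (∑ a ∈ free N, ∑ v ∈ nb G N a, ((D G N a : ℝ) - 1) * w (D G N v - 1)) -
      (∑ a ∈ free N, ∑ v ∈ nb G N a, ((D G N a : ℝ) - 1) * w (D G N a - 1)) =
      ∑ u, ∑ v, phi1 G w u v N := by
    rw [TB1_phi1]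
    have hc1 := sum_nb_comm (G := G) N (fun a v => ((D G N a : ℝ) - 1) * w (D G N v - 1))
    have hc2 := sum_nb_comm (G := G) N (fun a v => ((D G N a : ℝ) - 1) * w (D G N a - 1))
    have hexp : ∑ a ∈ free N, ∑ v ∈ nb G N a,
        (1 / 2) * (((D G N a : ℕ) : ℝ) - (D G N v : ℕ)) * (w (D G N v - 1) - w (D G N a - 1)) =
        (1 / 2) * ((∑ a ∈ free N, ∑ v ∈ nb G N a, ((D G N a : ℝ) - 1) * w (D G N v - 1)) +
        (∑ a ∈ free N, ∑ v ∈ nb G N a, ((D G N v : ℝ) - 1) * w (D G N a - 1)) -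
        (∑ a ∈ free N, ∑ v ∈ nb G N a, ((D G N a : ℝ) - 1) * w (D G N a - 1)) -
        (∑ a ∈ free N, ∑ v ∈ nb G N a, ((D G N v : ℝ) - 1) * w (D G N v - 1))) := by
      rw [← Finset.sum_add_distrib, ← Finset.sum_sub_distrib, ← Finset.sum_sub_distrib,
        Finset.mul_sum]
      refine Finset.sum_congr rfl fun a _ => ?_
      rw [← Finset.sum_add_distrib, ← Finset.sum_sub_distrib, ← Finset.sum_sub_distrib,
        Finset.mul_sum]
      refine Finset.sum_congr rfl fun v _ => ?_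
      ring
    rw [hexp]
    linarith
  have e5 : ∑ a ∈ free N, ∑ b ∈ nb G N a, ∑ v ∈ (nb G N a).erase b,
        (if G.Adj v b then w (D G N v - 2) - w (D G N v - 1) else 0) = ∑ v, phi2 G w v N := by
    rw [TB1_phi2]
    have h1 : ∀ a ∈ free N, ∑ b ∈ nb G N a, ∑ v ∈ (nb G N a).erase b,
        (if G.Adj v b then w (D G N v - 2) - w (D G N v - 1) else 0) =
        ∑ v ∈ nb G N a, ∑ b ∈ nb G N a,
          (if G.Adj v b then w (D G N v - 2) - w (D G N v - 1) else 0) := by
      intro a _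
      rw [Finset.sum_comm]
      refine Finset.sum_congr rfl fun b _ => ?_
      refine Finset.sum_erase _ ?_
      rw [if_neg (SimpleGraph.irrefl G)]
    rw [Finset.sum_congr rfl h1]
    have h2 := sum_nb_comm (G := G) N (fun a v => ∑ b ∈ nb G N a,
          (if G.Adj v b then w (D G N v - 2) - w (D G N v - 1) else 0))
    rw [h2]
    refine Finset.sum_congr rfl fun v hv => Finset.sum_congr rfl fun a ha => ?_
    have h3 : ∀ (S : Finset V) (P : V → Prop), ∑ b ∈ S,
        (if P b then w (D G N v - 2) - w (D G N v - 1) else 0) =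
        ∑ b ∈ S.filter P, (w (D G N v - 2) - w (D G N v - 1)) :=
      fun S P => (Finset.sum_filter _ _).symm
    rw [h3, h3]
    refine Finset.sum_congr ?_ fun _ _ => rfl
    ext b
    simp only [Finset.mem_filter, mem_nb]
    tauto
  rw [e1, e2, e3]
  unfold WW
  rw [← e4, ← e5]
  ring

theorem step_WW {r : ℕ} (hreg : Reg G r) (i : ℕ) (w : ℕ → ℝ) :
    Phi G (i + 1) (fun d => ((r : ℝ) - d) * w d) -
        Phi G i (fun d => (d : ℝ) * (d - 1) * w (d - 1)) =
      ∑ N ∈ mats G i, WW G w N := by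
  rw [step_exact hreg i w]
  unfold Phi
  rw [← Finset.sum_sub_distrib]
  exact Finset.sum_congr rfl fun N _ => TB1_step w N

theorem phi1_nonneg {w : ℕ → ℝ} (hw : ∀ a, w (a + 1) ≤ w a) (u v : V) (N : Finset (Sym2 V)) :
    0 ≤ phi1 G w u v N := by
  have hanti : Antitone w := antitone_nat_of_succ_le hw
  unfold phi1
  split_ifs with h
  · rcases le_total (D G N u) (D G N v) with h1 | h1
    · have h2 : ((D G N u : ℕ) : ℝ) ≤ (D G N v : ℕ) := by exact_mod_cast h1
      have h3 := hanti (Nat.sub_le_sub_right h1 1)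
      exact mul_nonneg_of_nonpos_of_nonpos (by linarith) (by linarith)
    · have h2 : ((D G N v : ℕ) : ℝ) ≤ (D G N u : ℕ) := by exact_mod_cast h1
      have h3 := hanti (Nat.sub_le_sub_right h1 1)
      exact mul_nonneg (by linarith) (by linarith)
  · exact le_rfl

theorem phi2_nonneg {w : ℕ → ℝ} (hw : ∀ a, w (a + 1) ≤ w a) (v : V) (N : Finset (Sym2 V)) :
    0 ≤ phi2 G w v N := by
  have hanti : Antitone w := antitone_nat_of_succ_le hw
  unfold phi2
  split_ifs with h
  · have h1 := hanti (show D G N v - 2 ≤ D G N v - 1 by omega)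
    exact mul_nonneg (Finset.sum_nonneg fun a _ => Nat.cast_nonneg _) (by linarith)
  · exact le_rfl

theorem WW_nonneg {w : ℕ → ℝ} (hw : ∀ a, w (a + 1) ≤ w a) (N : Finset (Sym2 V)) :
    0 ≤ WW G w N :=
  add_nonneg (Finset.sum_nonneg fun u _ => Finset.sum_nonneg fun v _ => phi1_nonneg hw u v N)
    (Finset.sum_nonneg fun v _ => phi2_nonneg hw v N)

end

end Pool.Agent.Lib.MP_eeed5c_coN
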