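import Pool.Agent.Lib.MP_eeed5c_co_N.TA2
import Pool.Agent.Lib.MP_eeed5c_co_N.TB1

/-!
# The exact identity for `Dp`

PROOFS. `Dp_coeff`: write `r = R + 1`, `n = q r`, `m i = (mats G i).card`, `K = Lp r`. `2 (i+1) m (i+1) = Phi G i (fun d => d)`
(`Phi_D`), `(2 n - 2 i) m i = Phi G i (fun _ => 1)` (`Phi_const`), `(mp G).coeff i = m i` (`mp_coeff`). Hence the coefficient
of `X^i` in `2 n M` is `Phi G i 1 + 2 i m i`, and `2 i m i` is the coefficient of `X^i` in `X * (2 M')`, `2 M'` has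
coefficients `Phi G i (fun d => d)`. So `2 Dp = K' A1 + (X K' - r K) Ad` with `A1 = ∑ X^i Phi_i(1)`,
`Ad = ∑ X^i Phi_i(d)`. By `Lp_deriv`, `Lp_succ`: `K' = r^2 Lp R`, `X K' - r K = - r kp r`. So
`2 Dp / r = ∑_i X^i Phi_i (d ↦ r Lp R - d kp r)` and by `gp_rec` (`t = R - d`, for `d ≤ R`; for `d = r = R + 1` use
`kp_succ R` and `gp_zero`: `r Lp R - r kp r = - r R X kp R`) for `d ≤ r`
`r Lp R - d kp r = (r - d) gp R (R-d) - X d (d-1) gp R (R-(d-1))`,
that is, coefficient of `X^j`: `(r - d) ww R j d - d (d-1) ww R (j-1) (d-1)` (the second term only for `j ≥ 1`).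
`Phi_congr` with `D_le` (`Chain.lean`). The coefficient of `X^(k+1)` of `2 Dp / r` is therefore
`∑_{i+j=k+1} Phi_i ((r-d) ww R j d) - ∑_{i+j=k} Phi_i (d (d-1) ww R j (d-1))`; `Phi_0 ((r-d) w) = 0`
(`D_zero`), so the first sum is `∑_{i+j=k} Phi_(i+1) ((r-d) ww R j d)`. Now `step_WW`.

`Dp_coeff_zero`: the coefficient of `X^0`: `n K_1 m_0 - r K_0 m_1 = n r^2 - r (n r) = 0` (`card_mats_one`), or the above.
-/

set_option autoImplicit false

namespace Pool.Agent.Lib.MP_eeed5c_coN

open Finset Pool.Agent.Lib.MP_eeed5c_co Pool.Agent.Lib.MP_eeed5c_coT Pool.Agent.Lib.MP_eeed5c_coU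

section

variable {V : Type*} [Fintype V] {G : SimpleGraph V}

private theorem TB2_A1 {q R : ℕ} (hV : Fintype.card V = 2 * (q * (R + 1))) (i : ℕ) :
    (Polynomial.C (2 * ((q : ℝ) * ((R : ℝ) + 1))) * mp G -
      Polynomial.C 2 * (Polynomial.X * (mp G).derivative)).coeff i =
      Phi G i (fun _ => (1 : ℝ)) := by
  have hV' : (Fintype.card V : ℝ) = 2 * ((q : ℝ) * ((R : ℝ) + 1)) := by
    rw [hV]; push_cast; ring
  rw [Phi_const, Polynomial.coeff_sub, Polynomial.coeff_C_mul, Polynomial.coeff_C_mul, mp_coeff,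
    hV']
  rcases i with _ | i
  · simp
  · rw [Polynomial.coeff_X_mul, Polynomial.coeff_derivative, mp_coeff]
    push_cast
    ring

private theorem TB2_Ad (i : ℕ) :
    (Polynomial.C 2 * (mp G).derivative).coeff i = Phi G i (fun d => (d : ℝ)) := by
  rw [Phi_D, Polynomial.coeff_C_mul, Polynomial.coeff_derivative, mp_coeff]
  ring

private theorem TB2_poly {q R : ℕ} :
    Polynomial.C 2 * Dp (R + 1) q G = Polynomial.C ((R : ℝ) + 1) *
      ((Polynomial.C (2 * ((q : ℝ) * ((R : ℝ) + 1))) * mp G -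
        Polynomial.C 2 * (Polynomial.X * (mp G).derivative)) *
          (Polynomial.C ((R : ℝ) + 1) * Lp R) -
        (Polynomial.C 2 * (mp G).derivative) * kp (R + 1)) := by
  unfold Dp
  rw [Lp_deriv, Lp_succ]
  simp only [Nat.cast_add, Nat.cast_one, map_mul, map_pow, map_add]
  ring

private theorem TB2_step1 {q R : ℕ} (hV : Fintype.card V = 2 * (q * (R + 1))) (k : ℕ) :
    2 * (Dp (R + 1) q G).coeff k = ((R : ℝ) + 1) * ∑ p ∈ antidiagonal k,
      Phi G p.1 (fun d => ((R : ℝ) + 1) * (Lp R).coeff p.2 - d * (kp (R + 1)).coeff p.2) := by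
  have h := congrArg (fun P : Polynomial ℝ => P.coeff k) (TB2_poly (G := G) (q := q) (R := R))
  simp only [Polynomial.coeff_C_mul] at h
  rw [h, Polynomial.coeff_sub, Polynomial.coeff_mul, Polynomial.coeff_mul,
    ← Finset.sum_sub_distrib]
  congr 1
  refine Finset.sum_congr rfl fun p _ => ?_
  rw [TB2_A1 hV, TB2_Ad, Polynomial.coeff_C_mul]
  have h1 : (fun d : ℕ => ((R : ℝ) + 1) * (Lp R).coeff p.2 - d * (kp (R + 1)).coeff p.2) =
      fun d : ℕ => (((R : ℝ) + 1) * (Lp R).coeff p.2) * (fun _ : ℕ => (1 : ℝ)) d +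
        (-(kp (R + 1)).coeff p.2) * (fun d : ℕ => (d : ℝ)) d := by
    funext d; ring
  rw [h1, Phi_add, Phi_smul, Phi_smul]
  ring

private theorem TB2_point (R d j : ℕ) (hd : d ≤ R + 1) :
    ((R : ℝ) + 1) * (Lp R).coeff j - d * (kp (R + 1)).coeff j =
      (((R : ℝ) + 1) - d) * ww R j d -
        (if j = 0 then 0 else (d : ℝ) * ((d : ℝ) - 1) * ww R (j - 1) (d - 1)) := by
  rcases Nat.lt_or_ge R d with h | h
  · have hd' : d = R + 1 := by omega
    subst hd'
    have hk := kp_succ R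
    have h1 : (kp (R + 1)).coeff j = (Lp R).coeff j + R * (Polynomial.X * kp R).coeff j := by
      rw [hk, Polynomial.coeff_add, mul_assoc, Polynomial.coeff_C_mul]
    rw [h1]
    rcases j with _ | j
    · simp
    · rw [Polynomial.coeff_X_mul, if_neg (Nat.succ_ne_zero j)]
      have h2 : ww R (j + 1 - 1) (R + 1 - 1) = (kp R).coeff j := by
        unfold ww
        rw [Nat.add_sub_cancel, Nat.add_sub_cancel, Nat.sub_self, gp_zero]
      rw [h2]
      push_cast
      ring
  · have ht : R - d ≤ R := Nat.sub_le _ _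
    have hrec := congrArg (fun P : Polynomial ℝ => P.coeff j) (gp_rec ht)
    simp only [Polynomial.coeff_sub, Polynomial.coeff_C_mul, mul_assoc] at hrec
    have hc : ((R - d : ℕ) : ℝ) = (R : ℝ) - d := by push_cast [h]; ring
    rw [hc] at hrec
    have h3 : (gp R (R - d)).coeff j = ww R j d := rfl
    rw [h3] at hrec
    rcases j with _ | j
    · rw [Polynomial.mul_coeff_zero, Polynomial.coeff_X_zero] at hrec
      simp only [if_true]
      linarith
    · rw [Polynomial.coeff_X_mul] at hrec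
      rw [if_neg (Nat.succ_ne_zero j), Nat.add_sub_cancel]
      rcases d with _ | d
      · simp only [Nat.cast_zero] at hrec ⊢
        linarith
      · have h4 : R - (d + 1) + 1 = R - (d + 1 - 1) := by omega
        rw [h4] at hrec
        have h5 : (gp R (R - (d + 1 - 1))).coeff j = ww R j (d + 1 - 1) := rfl
        rw [h5] at hrec
        linarith

theorem Dp_coeff {q R : ℕ} (hV : Fintype.card V = 2 * (q * (R + 1))) (hreg : Reg G (R + 1))
    (k : ℕ) : 2 * (Dp (R + 1) q G).coeff (k + 1) =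
      ((R : ℝ) + 1) * ∑ p ∈ antidiagonal k, ∑ N ∈ mats G p.1, WW G (ww R p.2) N := by
  classical
  rw [TB2_step1 hV]
  congr 1
  have h1 : ∀ p ∈ antidiagonal (k + 1), Phi G p.1
      (fun d => ((R : ℝ) + 1) * (Lp R).coeff p.2 - d * (kp (R + 1)).coeff p.2) =
      Phi G p.1 (fun d => (((R + 1 : ℕ) : ℝ) - d) * ww R p.2 d) -
        (if p.2 = 0 then 0 else
          Phi G p.1 (fun d => (d : ℝ) * (d - 1) * ww R (p.2 - 1) (d - 1))) := by
    intro p _
    rw [Phi_congr (r := R + 1) p.1 (fun N _ v _ => D_le hreg N v)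
      (fun d hd => TB2_point R d p.2 hd)]
    rcases Nat.eq_zero_or_pos p.2 with h | h
    · simp only [h, if_true, sub_zero]
      push_cast
      rfl
    · have hne : p.2 ≠ 0 := by omega
      simp only [if_neg hne]
      have h2 : (fun d : ℕ => ((R : ℝ) + 1 - d) * ww R p.2 d -
          (d : ℝ) * ((d : ℝ) - 1) * ww R (p.2 - 1) (d - 1)) =
          fun d : ℕ => (fun d : ℕ => (((R + 1 : ℕ) : ℝ) - d) * ww R p.2 d) d +
            (-1) * (fun d : ℕ => (d : ℝ) * ((d : ℝ) - 1) * ww R (p.2 - 1) (d - 1)) d := by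
        funext d
        push_cast
        ring
      rw [h2, Phi_add, Phi_smul]
      ring
  rw [Finset.sum_congr rfl h1, Finset.sum_sub_distrib, Finset.Nat.sum_antidiagonal_succ,
    Finset.Nat.sum_antidiagonal_succ']
  have h0 : Phi G 0 (fun d => (((R + 1 : ℕ) : ℝ) - d) * ww R (k + 1) d) = 0 := by
    unfold Phi
    refine Finset.sum_eq_zero fun N hN => Finset.sum_eq_zero fun v _ => ?_
    rw [D_zero hreg hN v]
    ring
  simp only [if_true, Nat.succ_ne_zero, if_false, Nat.add_sub_cancel]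
  rw [h0, zero_add, zero_add, ← Finset.sum_sub_distrib]
  refine Finset.sum_congr rfl fun p _ => ?_
  exact step_WW hreg p.1 (ww R p.2)

theorem Dp_coeff_zero {q R : ℕ} (hV : Fintype.card V = 2 * (q * (R + 1)))
    (hreg : Reg G (R + 1)) : (Dp (R + 1) q G).coeff 0 = 0 := by
  classical
  have h := TB2_step1 (G := G) hV 0
  rw [Finset.Nat.antidiagonal_zero, Finset.sum_singleton] at h
  have h2 : Phi G 0 (fun d => ((R : ℝ) + 1) * (Lp R).coeff 0 - d * (kp (R + 1)).coeff 0) = 0 := by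
    unfold Phi
    refine Finset.sum_eq_zero fun N hN => Finset.sum_eq_zero fun v _ => ?_
    rw [D_zero hreg hN v]
    have h3 := TB2_point R (R + 1) 0 le_rfl
    simp only [if_true, sub_zero] at h3
    push_cast at h3 ⊢
    linarith
  simp only at h
  rw [h2] at h
  linarith

/-- All coefficients of `Dp` are nonnegative. -/
theorem Dp_nonneg {q R : ℕ} (hV : Fintype.card V = 2 * (q * (R + 1))) (hreg : Reg G (R + 1))
    (k : ℕ) : 0 ≤ (Dp (R + 1) q G).coeff k := by
  rcases k with _ | k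
  · rw [Dp_coeff_zero hV hreg]
  · have h := Dp_coeff (G := G) hV hreg k
    have h2 : 0 ≤ ((R : ℝ) + 1) *
        ∑ p ∈ antidiagonal k, ∑ N ∈ mats G p.1, WW G (ww R p.2) N := by
      refine mul_nonneg (by positivity) ?_
      refine Finset.sum_nonneg fun p _ => Finset.sum_nonneg fun N _ => ?_
      exact WW_nonneg (fun a => ww_anti R p.2 a) N
    linarith

end

end Pool.Agent.Lib.MP_eeed5c_coN
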