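import Pool.Agent.Lib.MP_eeed5c_co_U.Defs

/-!
# Definitions (top matchings)

`kp s` is the matching polynomial of `K_{s,s-1}` (and `1` for `s = 0`), `gp R t` the multipliers
(`r = R + 1`, `t = R - a`), `phi1` and `phi2` the local quantities of a matching (`w a` is a function
of the number `a` of OTHER uncovered neighbours). `Dp r q G = n K' M - r K M'` is defined in `U/Defs.lean`.
-/

set_option autoImplicit false

namespace Pool.Agent.Lib.MP_eeed5c_coN

open Finset Pool.Agent.Lib.MP_eeed5c_co Pool.Agent.Lib.MP_eeed5c_coT Pool.Agent.Lib.MP_eeed5c_coU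

/-- The number of matchings with `j` edges of `K_{s,s-1}`. -/
noncomputable def kc (s j : ℕ) : ℝ :=
  (s.choose j : ℝ) * ((s - 1).choose j : ℝ) * (j.factorial : ℝ)

/-- The matching polynomial of `K_{s,s-1}`. -/
noncomputable def kp (s : ℕ) : Polynomial ℝ :=
  ∑ j ∈ range (s + 1), Polynomial.monomial j (kc s j)

/-- The multipliers. -/
noncomputable def gp (R t : ℕ) : Polynomial ℝ :=
  ∑ i ∈ range (t + 1), Polynomial.C ((t.descFactorial i : ℕ) : ℝ) * Polynomial.X ^ i * kp (R - i)

/-- The coefficients of the multipliers as functions of the number `a` of other uncovered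
neighbours. -/
noncomputable def ww (R j a : ℕ) : ℝ := (gp R (R - a)).coeff j

section

variable {V : Type*} [Fintype V]

/-- The local quantity of an oriented edge `(u, v)`. -/
noncomputable def phi1 (G : SimpleGraph V) (w : ℕ → ℝ) (u v : V) (N : Finset (Sym2 V)) : ℝ := by
  classical exact
    if u ∈ free N ∧ v ∈ free N ∧ G.Adj u v then
      (1 / 2) * (((D G N u : ℕ) : ℝ) - (D G N v : ℕ)) * (w (D G N v - 1) - w (D G N u - 1)) else 0

/-- The local quantity of a vertex `v`: the uncovered triangles through `v`. -/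
noncomputable def phi2 (G : SimpleGraph V) (w : ℕ → ℝ) (v : V) (N : Finset (Sym2 V)) : ℝ := by
  classical exact
    if v ∈ free N then
      (∑ a ∈ nb G N v, (((nb G N v).filter (fun b => G.Adj a b)).card : ℝ)) *
        (w (D G N v - 2) - w (D G N v - 1)) else 0

/-- The sum of the local quantities. -/
noncomputable def WW (G : SimpleGraph V) (w : ℕ → ℝ) (N : Finset (Sym2 V)) : ℝ :=
  ∑ u, ∑ v, phi1 G w u v N + ∑ v, phi2 G w v N

end

end Pool.Agent.Lib.MP_eeed5c_coN
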