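import Pool.Agent.Lib.MP_eeed5c_co_N.Defs

/-!
# The multipliers

PROOFS. `Lp_coeff` (`Base.lean`): `(Lp r).coeff j = ell r j = C(r,j)^2 j!`.

`kp_coeff`: as `Lp_coeff` (for `j > s` the binomial coefficient `s.choose j` is 0).

`kp_succ`: coefficient of `X^j`: `C(s+1,j) C(s,j) j! = C(s,j)^2 j! + s C(s,j-1) C(s-1,j-1) (j-1)!`
(`j ≥ 1`): `C(s+1,j) = C(s,j) + C(s,j-1)` and `C(s,j) j! = s C(s-1,j-1) (j-1)!` (`j C(s,j) = s C(s-1,j-1)`,
`Nat.succ_mul_choose_eq`; `s = 0` separately).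

`Lp_succ`: `C(s+1,j)^2 j! = C(s+1,j) C(s,j) j! + (s+1) C(s,j-1)^2 (j-1)!`: `C(s+1,j) = C(s,j) + C(s,j-1)` and
`C(s+1,j) j! = (s+1) C(s,j-1) (j-1)!`.

`Lp_deriv`: `(j+1) C(R+1,j+1)^2 (j+1)! = (R+1)^2 C(R,j)^2 j!` from `(j+1) C(R+1,j+1) = (R+1) C(R,j)`.

`kp_three`: from `kp_succ (s+1)`, `Lp_succ s`, `kp_succ s`:
`kp(s+2) = Lp(s+1) + (s+1) X kp(s+1)`, `Lp(s+1) = kp(s+1) + (s+1) X Lp(s)`, `Lp(s) = kp(s+1) - s X kp(s)`.
-/

set_option autoImplicit false

namespace Pool.Agent.Lib.MP_eeed5c_coN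

open Finset Pool.Agent.Lib.MP_eeed5c_co Pool.Agent.Lib.MP_eeed5c_coT Pool.Agent.Lib.MP_eeed5c_coU

private theorem TA1_choose (s j : ℕ) :
    ((s + 1).choose (j + 1) : ℝ) * ((j : ℝ) + 1) = ((s : ℝ) + 1) * (s.choose j : ℝ) := by
  have h := Nat.add_one_mul_choose_eq s j
  have h2 : (((s + 1) * s.choose j : ℕ) : ℝ) = (((s + 1).choose (j + 1) * (j + 1) : ℕ) : ℝ) := by
    exact congrArg _ h
  push_cast at h2
  exact h2.symm

private theorem TA1_pascal (s j : ℕ) :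
    ((s + 1).choose (j + 1) : ℝ) = (s.choose j : ℝ) + (s.choose (j + 1) : ℝ) := by
  rw [Nat.choose_succ_succ]
  push_cast
  rfl

private theorem TA1_fac (j : ℕ) : (((j + 1).factorial : ℕ) : ℝ) = ((j : ℝ) + 1) * (j.factorial : ℝ) := by
  rw [Nat.factorial_succ]
  push_cast
  rfl

private theorem TA1_pred (s j : ℕ) :
    (s.choose (j + 1) : ℝ) * (((j + 1).factorial : ℕ) : ℝ) =
      (s : ℝ) * ((s - 1).choose j : ℝ) * (j.factorial : ℝ) := by
  cases s with
  | zero =>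
    rw [Nat.choose_zero_succ]
    push_cast
    ring
  | succ t =>
    rw [TA1_fac, Nat.add_sub_cancel, ← mul_assoc, TA1_choose]
    push_cast
    rfl

theorem kp_coeff (s j : ℕ) : (kp s).coeff j = kc s j := by
  unfold kp
  rw [Polynomial.finsetSum_coeff]
  simp only [Polynomial.coeff_monomial]
  by_cases h : j ≤ s
  · rw [Finset.sum_ite_eq' (range (s + 1)) j, if_pos (Finset.mem_range.2 (by omega))]
  · rw [Finset.sum_ite_eq' (range (s + 1)) j, if_neg (by rw [Finset.mem_range]; omega)]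
    unfold kc
    rw [Nat.choose_eq_zero_of_lt (by omega)]
    push_cast
    ring

theorem NN_kp (s : ℕ) : NN (kp s) := by
  intro m
  rw [kp_coeff]
  unfold kc
  positivity

private theorem TA1_XC_zero (a : ℝ) (P : Polynomial ℝ) :
    (Polynomial.C a * Polynomial.X * P).coeff 0 = 0 := by
  rw [mul_assoc, Polynomial.coeff_C_mul, Polynomial.coeff_X_mul_zero, mul_zero]

private theorem TA1_XC_succ (a : ℝ) (P : Polynomial ℝ) (j : ℕ) :
    (Polynomial.C a * Polynomial.X * P).coeff (j + 1) = a * P.coeff j := by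
  rw [mul_assoc, Polynomial.coeff_C_mul, Polynomial.coeff_X_mul]

theorem kp_succ (s : ℕ) : kp (s + 1) = Lp s + Polynomial.C (s : ℝ) * Polynomial.X * kp s := by
  ext j
  rw [Polynomial.coeff_add, kp_coeff, Lp_coeff]
  cases j with
  | zero =>
    rw [TA1_XC_zero, ell_zero]
    unfold kc
    simp
  | succ j =>
    rw [TA1_XC_succ, kp_coeff]
    unfold kc ell
    rw [Nat.add_sub_cancel, TA1_pascal]
    have h := TA1_pred s j
    calc ((s.choose j : ℝ) + (s.choose (j + 1) : ℝ)) * (s.choose (j + 1) : ℝ) * (((j + 1).factorial : ℕ) : ℝ)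
        = (s.choose (j + 1) : ℝ) ^ 2 * (((j + 1).factorial : ℕ) : ℝ) +
          (s.choose j : ℝ) * ((s.choose (j + 1) : ℝ) * (((j + 1).factorial : ℕ) : ℝ)) := by ring
      _ = _ := by
        rw [h]
        ring

theorem Lp_succ (s : ℕ) :
    Lp (s + 1) = kp (s + 1) + Polynomial.C ((s : ℝ) + 1) * Polynomial.X * Lp s := by
  ext j
  rw [Polynomial.coeff_add, kp_coeff, Lp_coeff]
  cases j with
  | zero =>
    rw [TA1_XC_zero, ell_zero]
    unfold kc
    simp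
  | succ j =>
    rw [TA1_XC_succ, Lp_coeff]
    unfold kc ell
    rw [Nat.add_sub_cancel]
    have h := TA1_pascal s j
    have h2 := TA1_choose s j
    rw [TA1_fac]
    calc ((s + 1).choose (j + 1) : ℝ) ^ 2 * (((j : ℝ) + 1) * (j.factorial : ℝ))
        = ((s + 1).choose (j + 1) : ℝ) * ((s + 1).choose (j + 1) : ℝ) *
          (((j : ℝ) + 1) * (j.factorial : ℝ)) := by ring
      _ = ((s + 1).choose (j + 1) : ℝ) * ((s.choose j : ℝ) + (s.choose (j + 1) : ℝ)) *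
          (((j : ℝ) + 1) * (j.factorial : ℝ)) := by
        rw [← h]
      _ = ((s + 1).choose (j + 1) : ℝ) * (s.choose (j + 1) : ℝ) * (((j : ℝ) + 1) * (j.factorial : ℝ)) +
          (((s + 1).choose (j + 1) : ℝ) * ((j : ℝ) + 1)) * ((s.choose j : ℝ) * (j.factorial : ℝ)) := by ring
      _ = _ := by
        rw [h2]
        ring

theorem Lp_deriv (R : ℕ) : (Lp (R + 1)).derivative = Polynomial.C (((R : ℝ) + 1) ^ 2) * Lp R := by
  ext j
  rw [Polynomial.coeff_derivative, Lp_coeff, Polynomial.coeff_C_mul, Lp_coeff]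
  unfold ell
  have h2 := TA1_choose R j
  rw [TA1_fac]
  calc ((R + 1).choose (j + 1) : ℝ) ^ 2 * (((j : ℝ) + 1) * (j.factorial : ℝ)) * ((j : ℝ) + 1)
      = (((R + 1).choose (j + 1) : ℝ) * ((j : ℝ) + 1)) ^ 2 * (j.factorial : ℝ) := by ring
    _ = _ := by
      rw [h2]
      ring

theorem kp_three (s : ℕ) : kp (s + 2) =
    (1 + Polynomial.C (2 * ((s : ℝ) + 1)) * Polynomial.X) * kp (s + 1) -
      Polynomial.C (((s : ℝ) + 1) * s) * Polynomial.X ^ 2 * kp s := by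
  have h1 := kp_succ (s + 1)
  have h2 := Lp_succ s
  have h3 := kp_succ s
  have h4 : ((s + 1 : ℕ) : ℝ) = (s : ℝ) + 1 := by push_cast; rfl
  rw [h4] at h1
  have h5 : (Polynomial.C (2 * ((s : ℝ) + 1)) : Polynomial ℝ) = 2 * Polynomial.C ((s : ℝ) + 1) := by
    rw [Polynomial.C_mul]
    rfl
  have h6 : (Polynomial.C (((s : ℝ) + 1) * s) : Polynomial ℝ) =
      Polynomial.C ((s : ℝ) + 1) * Polynomial.C (s : ℝ) := Polynomial.C_mul
  rw [h5, h6]
  linear_combination h1 + h2 - Polynomial.C ((s : ℝ) + 1) * Polynomial.X * h3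

end Pool.Agent.Lib.MP_eeed5c_coN
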