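import Pool.Agent.Lib.MP_eeed5c_co_N.TA1

/-!
# The multipliers, recursion

PROOFS. `gp_zero`: one term.

`gp_rec`: put `a = R - t` (real), `c i = t.descFactorial i` (real), `κ i = kp (R - i)`. The three term recursion is
`κ (i-1) = (1 + 2 (R-i) X) κ i - (R-i)(R-i-1) X^2 κ (i+1)` for `1 ≤ i ≤ R` (for `i = R` the last coefficient is 0,
`κ(R+1) = kp 0`, and `kp 1 = 1 = kp 0`). First show
(**) `∑_{i ≤ t} c i X^i κ i + a X κ 0 = Lp R + a (a-1) X^2 ∑_{i ≤ t} c i X^i κ (i+1)`.
For this: `a (a-1) c i = (R-i)(R-i-1) c i - 2 (R-i-1) c (i+1) + c (i+2)` (from `c (i+1) = (t - i) c i`,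
`Nat.descFactorial_succ`, as real numbers; for `i ≤ t`, all `c` are 0 beyond `t`). By induction on `J ≥ 2`
`∑_{i<J} (c i X^i κ i - a (a-1) c i X^(i+2) κ(i+1)) = Lp R - a X κ 0 + c J X^J (2 (R-J) X κ J - κ(J-1)) - c (J+1) X^(J+1) κ J`
as long as `J ≤ R + 1` (start `J = 1`: `κ 0 - R (R-1) X^2 κ 1 = Lp R - R X κ 0` by `Lp_succ`, `kp_succ`; `R = 0` separately),
and for `J = t + 1` the boundary terms vanish. Then (the case `t + 1 ≤ R`) `(t+1).descFactorial (i+1) = (t+1) c i`, so
`gp R (t+1) = κ 0 + (t+1) X ∑_{i ≤ t} c i X^i κ (i+1)`, and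
`(t+1) gp R t - a (a-1) X gp R (t+1) = (t+1)(Lp R - a X κ 0) - a (a-1) X κ 0`, while the right side is
`(R+1) Lp R - a (Lp R + R X κ 0) = (t+1) Lp R - a R X κ 0` (`kp_succ R`), the same because `R = t + a`.

`gp_mono`: `t.descFactorial i ≤ (t+1).descFactorial i`, all coefficients of `kp` are nonnegative.

`gp_coeff_zero`: `X^i kp(R-i)` has degree `≤ i + (R - i)`.
-/

set_option autoImplicit false

namespace Pool.Agent.Lib.MP_eeed5c_coN

open Finset Pool.Agent.Lib.MP_eeed5c_co Pool.Agent.Lib.MP_eeed5c_coT Pool.Agent.Lib.MP_eeed5c_coU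

theorem gp_zero (R : ℕ) : gp R 0 = kp R := by
  unfold gp
  rw [Finset.sum_range_succ, Finset.sum_range_zero, Nat.descFactorial_zero, Nat.cast_one, Polynomial.C_1,
    pow_zero, Nat.sub_zero]
  ring

private theorem gp_succ_succ (R t : ℕ) :
    gp (R + 1) (t + 1) = kp (R + 1) + Polynomial.C ((t : ℝ) + 1) * Polynomial.X * gp R t := by
  unfold gp
  rw [Finset.sum_range_succ', Finset.mul_sum, add_comm]
  refine congrArg₂ (· + ·) ?_ (Finset.sum_congr rfl fun i _ => ?_)
  · rw [Nat.descFactorial_zero, Nat.cast_one, Polynomial.C_1, pow_zero, Nat.sub_zero]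
    ring
  · rw [Nat.succ_descFactorial_succ, Nat.add_sub_add_right, pow_succ, Nat.cast_mul, Nat.cast_add, Nat.cast_one,
      Polynomial.C_mul]
    ring

private theorem kp_z : kp 0 = 1 := by
  unfold kp kc
  rw [Finset.sum_range_succ, Finset.sum_range_zero]
  simp

private theorem Lp_z : Lp 0 = 1 := by
  have h1 := kp_succ 0
  have h2 := kp_z
  have h3 : kp 1 = 1 := by
    unfold kp kc
    rw [Finset.sum_range_succ, Finset.sum_range_succ, Finset.sum_range_zero]
    simp
  rw [Nat.cast_zero, Polynomial.C_0, zero_mul, zero_mul, add_zero, zero_add, h3] at h1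
  exact h1.symm

private theorem gp_rec_aux (a : ℕ) : ∀ t : ℕ,
    Polynomial.C ((t : ℝ) + 1) * gp (t + a) t -
      Polynomial.C ((a : ℝ) * ((a : ℝ) - 1)) * Polynomial.X * gp (t + a) (t + 1) =
    Polynomial.C ((t : ℝ) + a + 1) * Lp (t + a) - Polynomial.C (a : ℝ) * kp (t + a + 1) := by
  intro t
  induction t with
  | zero =>
    rw [gp_zero, Nat.zero_add]
    rcases a with _ | s
    · rw [Lp_z, kp_z]
      simp
    · rw [gp_succ_succ, gp_zero]
      have h1 := kp_succ (s + 1)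
      have h2 := Lp_succ s
      have h3 := kp_succ s
      have h4 : Lp s = kp (s + 1) - Polynomial.C (s : ℝ) * Polynomial.X * kp s := by
        rw [h3]
        ring
      rw [h1, h2, h4]
      simp only [Nat.cast_add, Nat.cast_one, Nat.cast_zero, Polynomial.C_mul, Polynomial.C_add, Polynomial.C_sub,
        Polynomial.C_1, Polynomial.C_0]
      ring
  | succ t ih =>
    have e1 : t + 1 + a = t + a + 1 := by omega
    rw [e1, gp_succ_succ, gp_succ_succ, kp_succ (t + a + 1), Lp_succ (t + a)]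
    have h2 : ∀ P Q : Polynomial ℝ, Polynomial.C ((t : ℝ) + 1) * P -
      Polynomial.C ((a : ℝ) * ((a : ℝ) - 1)) * Polynomial.X * Q =
      Polynomial.C ((t : ℝ) + a + 1) * Lp (t + a) - Polynomial.C (a : ℝ) * kp (t + a + 1) →
      Polynomial.C (((t + 1 : ℕ) : ℝ) + 1) * (kp (t + a + 1) + Polynomial.C ((t : ℝ) + 1) * Polynomial.X * P) -
        Polynomial.C ((a : ℝ) * ((a : ℝ) - 1)) * Polynomial.X *
          (kp (t + a + 1) + Polynomial.C (((t + 1 : ℕ) : ℝ) + 1) * Polynomial.X * Q) =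
      Polynomial.C (((t + 1 : ℕ) : ℝ) + a + 1) *
          (kp (t + a + 1) + Polynomial.C (((t + a : ℕ) : ℝ) + 1) * Polynomial.X * Lp (t + a)) -
        Polynomial.C (a : ℝ) * (kp (t + a + 1) + Polynomial.C (((t + a : ℕ) : ℝ) + 1) * Polynomial.X * Lp (t + a) +
          Polynomial.C ((t + a + 1 : ℕ) : ℝ) * Polynomial.X * kp (t + a + 1)) := by
      intro P Q h
      simp only [Nat.cast_add, Nat.cast_one, Polynomial.C_mul, Polynomial.C_add, Polynomial.C_sub,
        Polynomial.C_1] at h ⊢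
      linear_combination (Polynomial.C (t : ℝ) + 1 + 1) * Polynomial.X * h
    exact h2 _ _ ih

theorem gp_rec {R t : ℕ} (ht : t ≤ R) :
    Polynomial.C ((t : ℝ) + 1) * gp R t -
      Polynomial.C (((R : ℝ) - t) * ((R : ℝ) - t - 1)) * Polynomial.X * gp R (t + 1) =
    Polynomial.C ((R : ℝ) + 1) * Lp R - Polynomial.C ((R : ℝ) - t) * kp (R + 1) := by
  obtain ⟨a, rfl⟩ := Nat.exists_eq_add_of_le ht
  have h := gp_rec_aux a t
  have h1 : ((t + a : ℕ) : ℝ) - t = a := by
    push_cast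
    ring
  rw [h1, Nat.cast_add]
  exact h

private theorem gp_coeff (R t j : ℕ) : (gp R t).coeff j =
    ∑ i ∈ range (t + 1), ((t.descFactorial i : ℕ) : ℝ) * (Polynomial.X ^ i * kp (R - i)).coeff j := by
  unfold gp
  rw [Polynomial.finsetSum_coeff]
  refine Finset.sum_congr rfl fun i _ => ?_
  rw [mul_assoc, Polynomial.coeff_C_mul]

private theorem xk_nonneg (R i j : ℕ) : 0 ≤ (Polynomial.X ^ i * kp (R - i)).coeff j := by
  rw [Polynomial.coeff_X_pow_mul']
  split_ifs
  · exact NN_kp _ _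
  · exact le_rfl

theorem gp_mono (R t j : ℕ) : (gp R t).coeff j ≤ (gp R (t + 1)).coeff j := by
  rw [gp_coeff, gp_coeff, Finset.sum_range_succ _ (t + 1)]
  have h1 : ∑ i ∈ range (t + 1), ((t.descFactorial i : ℕ) : ℝ) * (Polynomial.X ^ i * kp (R - i)).coeff j ≤
      ∑ i ∈ range (t + 1), (((t + 1).descFactorial i : ℕ) : ℝ) * (Polynomial.X ^ i * kp (R - i)).coeff j := by
    refine Finset.sum_le_sum fun i _ => mul_le_mul_of_nonneg_right ?_ (xk_nonneg R i j)
    exact_mod_cast Nat.descFactorial_le i (Nat.le_succ t)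
  have h2 : 0 ≤ (((t + 1).descFactorial (t + 1) : ℕ) : ℝ) *
      (Polynomial.X ^ (t + 1) * kp (R - (t + 1))).coeff j :=
    mul_nonneg (Nat.cast_nonneg _) (xk_nonneg R (t + 1) j)
  linarith

theorem gp_coeff_zero {R t j : ℕ} (ht : t ≤ R) (hj : R < j) : (gp R t).coeff j = 0 := by
  rw [gp_coeff]
  refine Finset.sum_eq_zero fun i hi => ?_
  have hi' : i < t + 1 := Finset.mem_range.1 hi
  rw [Polynomial.coeff_X_pow_mul', if_pos (by omega), kp_coeff]
  unfold kc
  rw [Nat.choose_eq_zero_of_lt (show R - i < j - i by omega)]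
  simp

/-- The coefficients are nonincreasing in the number of uncovered neighbours. -/
theorem ww_anti (R j a : ℕ) : ww R j (a + 1) ≤ ww R j a := by
  unfold ww
  by_cases h : a + 1 ≤ R
  · have e : R - a = R - (a + 1) + 1 := by omega
    rw [e]
    exact gp_mono R _ j
  · have e : R - a = R - (a + 1) := by omega
    rw [e]

theorem ww_zero {R j a : ℕ} (hj : R < j) : ww R j a = 0 := by
  unfold ww
  exact gp_coeff_zero (Nat.sub_le R a) hj

end Pool.Agent.Lib.MP_eeed5c_coN
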