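import Pool.Agent.Lib.MP_eeed5c_co_N.Defs

/-!
# Growth of sums of local quantities

PROOF of `growth_local`. `S` is a set of at most `2 r` vertices, `f ≥ 0` a function of the matching which does not
change if an edge disjoint from `S` is added, and which is zero unless at least three vertices of `S` are uncovered.
Write `F_i = ∑ N ∈ mats G i, f N`, `g = n - (i+1)`. For a matching `N` let `F N = free N \ S` and
`t_x = ((F N).filter (fun y => G.Adj x y)).card`.

(1) `∑ N ∈ mats G i, f N * ∑ x ∈ F N, t_x = ∑ M ∈ mats G (i+1), f M * #{oriented edges of M disjoint from S}`: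
`sum_insert` (`Basic.lean`) with `F M p = if p.1 ∉ S ∧ p.2 ∉ S then f M else 0`; on the right side
`f (insert s(p.1,p.2) N) = f N` by `hinv`. Each `M ∈ mats G (i+1)` with `f M ≠ 0` has at least
`2 (i + 1) - 2 (2 r - 3)` oriented edges disjoint from `S`: the number of oriented edges `(x, y)` of `M` is `2 (i+1)`
(`sum_darts`, `card_covered`), those with `x ∈ S` are at most `|S \ free M| ≤ 2 r - 3` (`sum_darts` with an indicator),
the same for `y ∈ S` (`sum_darts_snd` in `Variance.lean`). Hence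
`∑ N, f N ∑ x t_x ≥ (2 (i+1) - 2 (2 r - 3)) F_(i+1)`.

(2) `∑ N ∈ mats G i, f N * ∑ x ∈ F N, t_x (t_x - 1) ≤ r (2 g - 3) F_(i+1)`: `t_x (t_x - 1) =
∑ y1 ∈ F N, y1 ~ x, #{y2 ∈ F N : y2 ~ x, y2 ≠ y1}`; by `sum_insert` with
`F M p = if p.1 ∉ S ∧ p.2 ∉ S then f M * #{y2 ∈ free M \ S : G.Adj p.1 y2} else 0` the left side is
`∑ M ∈ mats G (i+1), f M ∑ (x,y1) ∈ M disjoint from S, #{y2 ∈ free M \ S, y2 ~ x}` (for `M = insert s(x,y1) N`:
`free M = free N \ {x, y1}` and `x` is not adjacent to itself). For fixed `M` the inner double sum is at most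
`∑ x covered, #{y2 ∈ free M \ S, y2 ~ x} ≤ r * |free M \ S|` (exchange the sums, `hreg`), and
`|free M \ S| ≤ 2 (n - (i+1)) - 3` if `f M ≠ 0` (`card_free`, `hsup`).

(3) `t (t-1) ≥ 2 t - 2` for every natural number `t`, and `|F N| ≤ 2 (n - i) - 3 = 2 g - 1` if `f N ≠ 0`. So
`r (2 g - 3) F_(i+1) ≥ 2 (2 (i+1) - 2 (2 r - 3)) F_(i+1) - 2 (2 g - 1) F_i`.
-/

set_option autoImplicit false

namespace Pool.Agent.Lib.MP_eeed5c_coN

open Finset Pool.Agent.Lib.MP_eeed5c_co Pool.Agent.Lib.MP_eeed5c_coT Pool.Agent.Lib.MP_eeed5c_coU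

open scoped Classical in
private theorem TC_ind {V : Type*} [Fintype V] (G : SimpleGraph V) (S : Finset V) (N : Finset (Sym2 V))
    (h : V × V → ℝ) :
    ∑ p ∈ univ.filter (fun p : V × V => p.1 ∈ free N ∧ p.2 ∈ free N ∧ G.Adj p.1 p.2),
      (if p.1 ∉ S ∧ p.2 ∉ S then h p else 0) =
    ∑ x ∈ free N \ S, ∑ y ∈ (free N \ S).filter (fun y => G.Adj x y), h (x, y) := by
  rw [← Finset.sum_filter, Finset.filter_filter, Finset.sum_sigma']
  refine Finset.sum_bij' (fun p _ => ⟨p.1, p.2⟩) (fun x _ => (x.1, x.2)) ?_ ?_ ?_ ?_ ?_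
  · intro p hp
    simp only [Finset.mem_filter, Finset.mem_univ, true_and, Finset.mem_sigma, Finset.mem_sdiff] at hp ⊢
    tauto
  · intro p hp
    simp only [Finset.mem_filter, Finset.mem_univ, true_and, Finset.mem_sigma, Finset.mem_sdiff] at hp ⊢
    tauto
  · intro p _
    rfl
  · intro p _
    rfl
  · intro p _
    rfl

open scoped Classical in
/-- The number of oriented edges of a matching disjoint from `S`. -/
private theorem TC_low {V : Type*} [Fintype V] {G : SimpleGraph V} {r : ℕ} (S : Finset V)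
    (hS : S.card ≤ 2 * r) {k : ℕ} {M : Finset (Sym2 V)} (hM : M ∈ mats G k) (h3 : 3 ≤ (free M ∩ S).card) :
    (2 * (k : ℝ) - 2 * (2 * r - 3)) ≤
      ∑ p ∈ univ.filter (fun p : V × V => s(p.1, p.2) ∈ M), (if p.1 ∉ S ∧ p.2 ∉ S then (1 : ℝ) else 0) := by
  have hc : ∑ a ∈ univ.filter (fun a => a ∉ free M), (1 : ℝ) = 2 * k := by
    have h1 := card_covered hM
    rw [Finset.sum_const, nsmul_eq_mul, mul_one]
    have h2 : (univ.filter (fun a => a ∉ free M)).card = 2 * k := by
      rw [← h1]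
    rw [h2]
    push_cast
    ring
  have hs : ∑ a ∈ univ.filter (fun a => a ∉ free M), (if a ∈ S then (1 : ℝ) else 0) ≤ 2 * r - 3 := by
    rw [← Finset.sum_filter, Finset.sum_const, nsmul_eq_mul, mul_one, Finset.filter_filter]
    have h4 : (univ.filter (fun a => a ∉ free M ∧ a ∈ S)) = S \ free M := by
      ext a
      simp only [Finset.mem_filter, Finset.mem_univ, true_and, Finset.mem_sdiff]
      tauto
    rw [h4]
    have h5 : (S \ free M).card + (free M ∩ S).card = S.card := by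
      rw [Finset.inter_comm]
      exact Finset.card_sdiff_add_card_inter S (free M)
    have h6 : (S \ free M).card + 3 ≤ 2 * r := by omega
    have h7 : (((S \ free M).card : ℕ) : ℝ) + 3 ≤ 2 * r := by exact_mod_cast h6
    linarith
  have e1 := sum_darts hM (fun _ => (1 : ℝ))
  have e2 := sum_darts hM (fun a => if a ∈ S then (1 : ℝ) else 0)
  have e3 := sum_darts_snd hM (fun a => if a ∈ S then (1 : ℝ) else 0)
  have e4 : ∑ p ∈ univ.filter (fun p : V × V => s(p.1, p.2) ∈ M),
      ((1 : ℝ) - (if p.1 ∈ S then (1 : ℝ) else 0) - (if p.2 ∈ S then (1 : ℝ) else 0)) ≤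
      ∑ p ∈ univ.filter (fun p : V × V => s(p.1, p.2) ∈ M), (if p.1 ∉ S ∧ p.2 ∉ S then (1 : ℝ) else 0) := by
    refine Finset.sum_le_sum fun p _ => ?_
    by_cases h1 : p.1 ∈ S <;> by_cases h2 : p.2 ∈ S <;> simp [h1, h2]
  rw [Finset.sum_sub_distrib, Finset.sum_sub_distrib] at e4
  linarith

open scoped Classical in
/-- Uncovered neighbours outside `S` of covered vertices. -/
private theorem TC_up {V : Type*} [Fintype V] {G : SimpleGraph V} {r n : ℕ} (hV : Fintype.card V = 2 * n)
    (hreg : Reg G r) (S : Finset V) {k : ℕ} {M : Finset (Sym2 V)} (hM : M ∈ mats G k)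
    (h3 : 3 ≤ (free M ∩ S).card) :
    ∑ p ∈ univ.filter (fun p : V × V => s(p.1, p.2) ∈ M),
      (if p.1 ∉ S ∧ p.2 ∉ S then (((free M \ S).filter (fun y => G.Adj p.1 y)).card : ℝ) else 0) ≤
      r * (2 * ((n : ℝ) - k) - 3) := by
  have e1 : ∑ p ∈ univ.filter (fun p : V × V => s(p.1, p.2) ∈ M),
      (if p.1 ∉ S ∧ p.2 ∉ S then (((free M \ S).filter (fun y => G.Adj p.1 y)).card : ℝ) else 0) ≤
      ∑ p ∈ univ.filter (fun p : V × V => s(p.1, p.2) ∈ M), (((free M \ S).filter (fun y => G.Adj p.1 y)).card : ℝ) := by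
    refine Finset.sum_le_sum fun p _ => ?_
    split_ifs
    · exact le_refl _
    · exact Nat.cast_nonneg _
  have e2 := sum_darts hM (fun a => (((free M \ S).filter (fun y => G.Adj a y)).card : ℝ))
  have e3 : ∑ a ∈ univ.filter (fun a => a ∉ free M), (((free M \ S).filter (fun y => G.Adj a y)).card : ℝ) ≤
      ∑ a : V, (((free M \ S).filter (fun y => G.Adj a y)).card : ℝ) :=
    Finset.sum_le_sum_of_subset_of_nonneg (Finset.filter_subset _ _) fun _ _ _ => Nat.cast_nonneg _
  have e4 : ∑ a : V, (((free M \ S).filter (fun y => G.Adj a y)).card : ℝ) = r * (free M \ S).card := by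
    have e : ∀ a : V, (((free M \ S).filter (fun y => G.Adj a y)).card : ℝ) =
        ∑ y ∈ free M \ S, (if G.Adj a y then (1 : ℝ) else 0) := by
      intro a
      rw [Finset.card_filter]
      push_cast
      rfl
    rw [Finset.sum_congr rfl fun a _ => e a, Finset.sum_comm]
    have h1 : ∀ y ∈ free M \ S, ∑ a : V, (if G.Adj a y then (1 : ℝ) else 0) = r := by
      intro y _
      have h2 : (univ.filter fun u => G.Adj y u).card = r := hreg y
      rw [← h2, Finset.card_filter]
      push_cast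
      refine Finset.sum_congr rfl fun v _ => ?_
      simp only [G.adj_comm]
    rw [Finset.sum_congr rfl h1, Finset.sum_const, nsmul_eq_mul]
    ring
  have h5 : (free M \ S).card + (free M ∩ S).card = (free M).card := Finset.card_sdiff_add_card_inter _ _
  have h6 := card_free hM
  have h7 : (free M \ S).card + 3 + 2 * k ≤ 2 * n := by omega
  have h8 : (((free M \ S).card : ℕ) : ℝ) + 3 + 2 * k ≤ 2 * n := by exact_mod_cast h7
  have h9 : (r : ℝ) * (free M \ S).card ≤ r * (2 * ((n : ℝ) - k) - 3) :=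
    mul_le_mul_of_nonneg_left (by linarith) (Nat.cast_nonneg _)
  linarith

open scoped Classical in
theorem growth_local {V : Type*} [Fintype V] {G : SimpleGraph V} {r n : ℕ}
    (hV : Fintype.card V = 2 * n) (hreg : Reg G r) (S : Finset V) (hS : S.card ≤ 2 * r)
    (f : Finset (Sym2 V) → ℝ) (h0 : ∀ N, 0 ≤ f N)
    (hinv : ∀ i, ∀ N ∈ mats G i, ∀ x ∈ free N, ∀ y ∈ free N, G.Adj x y →
      x ∉ S → y ∉ S → f (insert s(x, y) N) = f N)
    (hsup : ∀ i, ∀ N ∈ mats G i, f N ≠ 0 → 3 ≤ (free N ∩ S).card) (i : ℕ) :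
    (4 * ((i : ℝ) + 1 - 2 * r + 3) - r * (2 * ((n : ℝ) - (i + 1)) - 3)) *
        ∑ N ∈ mats G (i + 1), f N ≤
      2 * (2 * ((n : ℝ) - (i + 1)) - 1) * ∑ N ∈ mats G i, f N := by
  -- (1)
  have h1 : ∑ N ∈ mats G i, f N * ∑ x ∈ free N \ S, (((free N \ S).filter (fun y => G.Adj x y)).card : ℝ) =
      ∑ M ∈ mats G (i + 1), f M * ∑ p ∈ univ.filter (fun p : V × V => s(p.1, p.2) ∈ M),
        (if p.1 ∉ S ∧ p.2 ∉ S then (1 : ℝ) else 0) := by
    have e1 := sum_insert (G := G) i (fun M p => if p.1 ∉ S ∧ p.2 ∉ S then f M else 0)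
    have e2 : ∀ M ∈ mats G (i + 1), ∑ p ∈ univ.filter (fun p : V × V => s(p.1, p.2) ∈ M),
        (if p.1 ∉ S ∧ p.2 ∉ S then f M else 0) = f M * ∑ p ∈ univ.filter (fun p : V × V => s(p.1, p.2) ∈ M),
        (if p.1 ∉ S ∧ p.2 ∉ S then (1 : ℝ) else 0) := by
      intro M _
      rw [Finset.mul_sum]
      refine Finset.sum_congr rfl fun p _ => ?_
      split_ifs
      · rw [mul_one]
      · rw [mul_zero]
    rw [← Finset.sum_congr rfl e2, e1]
    refine Finset.sum_congr rfl fun N hN => ?_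
    rw [TC_ind G S N (fun p => f (insert s(p.1, p.2) N)), Finset.mul_sum]
    refine Finset.sum_congr rfl fun x hx => ?_
    rw [Finset.mem_sdiff] at hx
    have e3 : ∀ y ∈ (free N \ S).filter (fun y => G.Adj x y), f (insert s(x, y) N) = f N := by
      intro y hy
      rw [Finset.mem_filter, Finset.mem_sdiff] at hy
      exact hinv i N hN x hx.1 y hy.1.1 hy.2 hx.2 hy.1.2
    rw [Finset.sum_congr rfl e3, Finset.sum_const, nsmul_eq_mul, mul_comm]
  have h2 : (2 * ((i : ℝ) + 1) - 2 * (2 * r - 3)) * ∑ M ∈ mats G (i + 1), f M ≤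
      ∑ M ∈ mats G (i + 1), f M * ∑ p ∈ univ.filter (fun p : V × V => s(p.1, p.2) ∈ M),
        (if p.1 ∉ S ∧ p.2 ∉ S then (1 : ℝ) else 0) := by
    rw [Finset.mul_sum]
    refine Finset.sum_le_sum fun M hM => ?_
    by_cases hf : f M = 0
    · rw [hf, mul_zero, zero_mul]
    · have e1 := TC_low S hS hM (hsup (i + 1) M hM hf)
      push_cast at e1
      rw [mul_comm]
      exact mul_le_mul_of_nonneg_left e1 (h0 M)
  -- (2)
  have h3 : ∑ N ∈ mats G i, f N * ∑ x ∈ free N \ S, (((free N \ S).filter (fun y => G.Adj x y)).card : ℝ) *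
        ((((free N \ S).filter (fun y => G.Adj x y)).card : ℝ) - 1) =
      ∑ M ∈ mats G (i + 1), f M * ∑ p ∈ univ.filter (fun p : V × V => s(p.1, p.2) ∈ M),
        (if p.1 ∉ S ∧ p.2 ∉ S then (((free M \ S).filter (fun y => G.Adj p.1 y)).card : ℝ) else 0) := by
    have e1 := sum_insert (G := G) i (fun M p => if p.1 ∉ S ∧ p.2 ∉ S then
      f M * (((free M \ S).filter (fun y => G.Adj p.1 y)).card : ℝ) else 0)
    have e2 : ∀ M ∈ mats G (i + 1), ∑ p ∈ univ.filter (fun p : V × V => s(p.1, p.2) ∈ M),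
        (if p.1 ∉ S ∧ p.2 ∉ S then f M * (((free M \ S).filter (fun y => G.Adj p.1 y)).card : ℝ) else 0) =
        f M * ∑ p ∈ univ.filter (fun p : V × V => s(p.1, p.2) ∈ M),
        (if p.1 ∉ S ∧ p.2 ∉ S then (((free M \ S).filter (fun y => G.Adj p.1 y)).card : ℝ) else 0) := by
      intro M _
      rw [Finset.mul_sum]
      refine Finset.sum_congr rfl fun p _ => ?_
      split_ifs
      · rfl
      · rw [mul_zero]
    rw [← Finset.sum_congr rfl e2, e1]
    refine Finset.sum_congr rfl fun N hN => ?_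
    rw [TC_ind G S N (fun p => f (insert s(p.1, p.2) N) *
      (((free (insert s(p.1, p.2) N) \ S).filter (fun y => G.Adj p.1 y)).card : ℝ)), Finset.mul_sum]
    refine Finset.sum_congr rfl fun x hx => ?_
    rw [Finset.mem_sdiff] at hx
    have e3 : ∀ y ∈ (free N \ S).filter (fun y => G.Adj x y), f (insert s(x, y) N) *
        (((free (insert s(x, y) N) \ S).filter (fun z => G.Adj x z)).card : ℝ) =
        f N * ((((free N \ S).filter (fun y => G.Adj x y)).card : ℝ) - 1) := by
      intro y hy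
      have hy' := hy
      rw [Finset.mem_filter, Finset.mem_sdiff] at hy
      rw [hinv i N hN x hx.1 y hy.1.1 hy.2 hx.2 hy.1.2]
      have e4 : (free (insert s(x, y) N) \ S).filter (fun z => G.Adj x z) =
          ((free N \ S).filter (fun z => G.Adj x z)).erase y := by
        ext z
        rw [Finset.mem_filter, Finset.mem_sdiff, mem_free_insert, Finset.mem_erase, Finset.mem_filter,
          Finset.mem_sdiff]
        constructor
        · rintro ⟨⟨⟨a1, a2, a3⟩, a4⟩, a5⟩
          exact ⟨a3, ⟨a1, a4⟩, a5⟩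
        · rintro ⟨a3, ⟨a1, a4⟩, a5⟩
          exact ⟨⟨⟨a1, a5.ne', a3⟩, a4⟩, a5⟩
      have e5 := Finset.card_erase_add_one hy'
      rw [e4]
      have e6 : ((((free N \ S).filter (fun z => G.Adj x z)).erase y).card : ℝ) + 1 =
          (((free N \ S).filter (fun y => G.Adj x y)).card : ℝ) := by exact_mod_cast e5
      rw [← e6]
      ring
    rw [Finset.sum_congr rfl e3, Finset.sum_const, nsmul_eq_mul]
    ring
  have h4 : ∑ M ∈ mats G (i + 1), f M * ∑ p ∈ univ.filter (fun p : V × V => s(p.1, p.2) ∈ M),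
        (if p.1 ∉ S ∧ p.2 ∉ S then (((free M \ S).filter (fun y => G.Adj p.1 y)).card : ℝ) else 0) ≤
      (r * (2 * ((n : ℝ) - (i + 1)) - 3)) * ∑ M ∈ mats G (i + 1), f M := by
    rw [Finset.mul_sum]
    refine Finset.sum_le_sum fun M hM => ?_
    by_cases hf : f M = 0
    · rw [hf, mul_zero, zero_mul]
    · have e1 := TC_up hV hreg S hM (hsup (i + 1) M hM hf)
      push_cast at e1
      rw [mul_comm (r * (2 * ((n : ℝ) - (i + 1)) - 3))]
      exact mul_le_mul_of_nonneg_left e1 (h0 M)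
  -- (3)
  have h5 : ∀ N ∈ mats G i, f N * (2 * ∑ x ∈ free N \ S, (((free N \ S).filter (fun y => G.Adj x y)).card : ℝ) -
      2 * (2 * ((n : ℝ) - (i + 1)) - 1)) ≤
      f N * ∑ x ∈ free N \ S, (((free N \ S).filter (fun y => G.Adj x y)).card : ℝ) *
        ((((free N \ S).filter (fun y => G.Adj x y)).card : ℝ) - 1) := by
    intro N hN
    by_cases hf : f N = 0
    · rw [hf, zero_mul, zero_mul]
    · refine mul_le_mul_of_nonneg_left ?_ (h0 N)
      have e1 : ∀ t : ℕ, 2 * (t : ℝ) - 2 ≤ (t : ℝ) * ((t : ℝ) - 1) := by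
        intro t
        rcases t with _ | _ | t
        · norm_num
        · norm_num
        · push_cast
          nlinarith [Nat.cast_nonneg (α := ℝ) t]
      have e2 : ∑ x ∈ free N \ S, (2 * (((free N \ S).filter (fun y => G.Adj x y)).card : ℝ) - 2) ≤
          ∑ x ∈ free N \ S, (((free N \ S).filter (fun y => G.Adj x y)).card : ℝ) *
            ((((free N \ S).filter (fun y => G.Adj x y)).card : ℝ) - 1) :=
        Finset.sum_le_sum fun x _ => e1 _
      rw [Finset.sum_sub_distrib, ← Finset.mul_sum, Finset.sum_const, nsmul_eq_mul] at e2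
      have e3 : (free N \ S).card + (free N ∩ S).card = (free N).card := Finset.card_sdiff_add_card_inter _ _
      have e4 := card_free hN
      have e5 := hsup i N hN hf
      have e6 : (free N \ S).card + 3 + 2 * i ≤ 2 * n := by omega
      have e7 : (((free N \ S).card : ℕ) : ℝ) + 3 + 2 * i ≤ 2 * n := by exact_mod_cast e6
      linarith
  have h6 := Finset.sum_le_sum h5
  have h7 : ∑ N ∈ mats G i, f N * (2 * ∑ x ∈ free N \ S, (((free N \ S).filter (fun y => G.Adj x y)).card : ℝ) -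
      2 * (2 * ((n : ℝ) - (i + 1)) - 1)) =
      2 * ∑ N ∈ mats G i, f N * ∑ x ∈ free N \ S, (((free N \ S).filter (fun y => G.Adj x y)).card : ℝ) -
      2 * (2 * ((n : ℝ) - (i + 1)) - 1) * ∑ N ∈ mats G i, f N := by
    rw [Finset.mul_sum, Finset.mul_sum, ← Finset.sum_sub_distrib]
    refine Finset.sum_congr rfl fun N _ => ?_
    ring
  rw [h7, h1, h3] at h6
  linarith

end Pool.Agent.Lib.MP_eeed5c_coN
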