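import Pool.Agent.Lib.MP_eeed5c_co_N.TB1
import Pool.Agent.Lib.MP_eeed5c_co_N.TC

/-!
# Growth of the local quantities

PROOF. Apply `growth_local` to each `phi1 G w u v` and to each `phi2 G w v` and add.

`phi1`, `G.Adj u v` (otherwise it is identically zero and the inequality is `0 ≤ 0`): `S` = neighbours of `u` or of `v`,
at most `2 r` vertices, `u ∈ S`, `v ∈ S`. Invariance: if `x, y ∉ S` are uncovered and adjacent, then
`free (insert s(x,y) N) = free N \ {x, y}` (`mem_free_insert`), `u, v ≠ x, y`, and `x, y` are not neighbours of `u` or `v`, so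
`nb G (insert s(x,y) N) u = nb G N u`, the same for `v`. Support: if `phi1 ≠ 0` then `D G N u ≠ D G N v`, both are `≥ 1`
(`v ∈ nb G N u`, `u ∈ nb G N v`), so one of them is `≥ 2`, say `D G N u ≥ 2`: `insert u (nb G N u) ⊆ free N ∩ S` has at least
three elements.

`phi2`: `S` = `v` and its neighbours, `r + 1 ≤ 2 r` vertices. Invariance as before. Support: if `phi2 ≠ 0` there are
`a, b ∈ nb G N v` with `a ~ b`, and `{v, a, b} ⊆ free N ∩ S`.

`∑ N ∈ mats G i, WW G w N = ∑ u ∑ v ∑ N phi1 + ∑ v ∑ N phi2` (`sum_add_distrib`, `sum_comm`).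
-/

set_option autoImplicit false

namespace Pool.Agent.Lib.MP_eeed5c_coN

open Finset Pool.Agent.Lib.MP_eeed5c_co Pool.Agent.Lib.MP_eeed5c_coT Pool.Agent.Lib.MP_eeed5c_coU

section

variable {V : Type*} [Fintype V] {G : SimpleGraph V}

open scoped Classical in
/-- Adding an edge which is not near `u` does not change the uncovered neighbours of `u`. -/
private theorem TD1_nb {u x y : V} {N : Finset (Sym2 V)} (hx : ¬ G.Adj u x) (hy : ¬ G.Adj u y) :
    nb G (insert s(x, y) N) u = nb G N u := by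
  ext z
  rw [mem_nb, mem_nb, mem_free_insert]
  constructor
  · rintro ⟨⟨h1, _, _⟩, h4⟩
    exact ⟨h1, h4⟩
  · rintro ⟨h1, h4⟩
    refine ⟨⟨h1, ?_, ?_⟩, h4⟩
    · rintro rfl
      exact hx h4
    · rintro rfl
      exact hy h4

open scoped Classical in
private theorem TD1_three {u : V} {S : Finset V} {N : Finset (Sym2 V)} (hu : u ∈ free N) (huS : u ∈ S)
    (hS : ∀ y, G.Adj u y → y ∈ S) (h2 : 2 ≤ D G N u) : 3 ≤ (free N ∩ S).card := by
  have h3 : insert u (nb G N u) ⊆ free N ∩ S := by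
    intro z hz
    rw [Finset.mem_insert, mem_nb] at hz
    rw [Finset.mem_inter]
    rcases hz with rfl | ⟨h4, h5⟩
    · exact ⟨hu, huS⟩
    · exact ⟨h4, hS z h5⟩
  have h4 : u ∉ nb G N u := by
    rw [mem_nb]
    rintro ⟨_, h5⟩
    exact G.loopless.irrefl u h5
  have h5 := Finset.card_le_card h3
  rw [Finset.card_insert_of_notMem h4] at h5
  unfold D at h2
  omega

private theorem TD1_phi1_eq {w : ℕ → ℝ} {u v : V} {N N' : Finset (Sym2 V)} (hu : u ∈ free N' ↔ u ∈ free N)
    (hv : v ∈ free N' ↔ v ∈ free N) (hnu : nb G N' u = nb G N u) (hnv : nb G N' v = nb G N v) :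
    phi1 G w u v N' = phi1 G w u v N := by
  unfold phi1 D
  rw [hnu, hnv]
  by_cases h : u ∈ free N ∧ v ∈ free N ∧ G.Adj u v
  · rw [if_pos h, if_pos ⟨hu.2 h.1, hv.2 h.2.1, h.2.2⟩]
  · rw [if_neg h, if_neg fun h' => h ⟨hu.1 h'.1, hv.1 h'.2.1, h'.2.2⟩]

private theorem TD1_phi2_eq {w : ℕ → ℝ} {v : V} {N N' : Finset (Sym2 V)}
    (hv : v ∈ free N' ↔ v ∈ free N) (hnv : nb G N' v = nb G N v) :
    phi2 G w v N' = phi2 G w v N := by
  unfold phi2 D
  rw [hnv]
  by_cases h : v ∈ free N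
  · rw [if_pos h, if_pos (hv.2 h)]
  · rw [if_neg h, if_neg fun h' => h (hv.1 h')]

theorem phi1_growth {r n : ℕ} (hr : 2 ≤ r) (hV : Fintype.card V = 2 * n) (hreg : Reg G r)
    {w : ℕ → ℝ} (hw : ∀ a, w (a + 1) ≤ w a) (u v : V) (i : ℕ) :
    (4 * ((i : ℝ) + 1 - 2 * r + 3) - r * (2 * ((n : ℝ) - (i + 1)) - 3)) *
        ∑ N ∈ mats G (i + 1), phi1 G w u v N ≤
      2 * (2 * ((n : ℝ) - (i + 1)) - 1) * ∑ N ∈ mats G i, phi1 G w u v N := by
  classical
  by_cases hadj : G.Adj u v
  · have hd : (univ.filter fun y => G.Adj u y).card = r := by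
      have h1 := hreg u
      rw [← h1]
    have hd' : (univ.filter fun y => G.Adj v y).card = r := by
      have h1 := hreg v
      rw [← h1]
    refine growth_local hV hreg ((univ.filter fun y => G.Adj u y) ∪ (univ.filter fun y => G.Adj v y)) ?_
      (phi1 G w u v) (phi1_nonneg hw u v) ?_ ?_ i
    · refine (Finset.card_union_le _ _).trans ?_
      rw [hd, hd']
      omega
    · intro k N hN x hx y hy hxy hxS hyS
      simp only [Finset.mem_union, Finset.mem_filter, Finset.mem_univ, true_and, not_or] at hxS hyS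
      have h1 : ∀ z, z = u ∨ z = v → z ≠ x ∧ z ≠ y := by
        rintro z (rfl | rfl)
        · refine ⟨?_, ?_⟩
          · rintro rfl
            exact hxS.2 hadj.symm
          · rintro rfl
            exact hyS.2 hadj.symm
        · refine ⟨?_, ?_⟩
          · rintro rfl
            exact hxS.1 hadj
          · rintro rfl
            exact hyS.1 hadj
      have h2 : ∀ z, z = u ∨ z = v → (z ∈ free (insert s(x, y) N) ↔ z ∈ free N) := by
        intro z hz
        rw [mem_free_insert]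
        exact ⟨fun h => h.1, fun h => ⟨h, h1 z hz⟩⟩
      exact TD1_phi1_eq (h2 u (Or.inl rfl)) (h2 v (Or.inr rfl)) (TD1_nb hxS.1 hyS.1) (TD1_nb hxS.2 hyS.2)
    · intro k N hN hne
      have h1 : u ∈ free N ∧ v ∈ free N ∧ G.Adj u v := by
        by_contra h
        apply hne
        unfold phi1
        rw [if_neg h]
      have h2 : D G N u ≠ D G N v := by
        intro h
        apply hne
        unfold phi1
        rw [if_pos h1, h, sub_self, mul_zero, zero_mul]
      have h3 : 1 ≤ D G N u := Finset.card_pos.2 ⟨v, mem_nb.2 ⟨h1.2.1, h1.2.2⟩⟩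
      have h4 : 1 ≤ D G N v := Finset.card_pos.2 ⟨u, mem_nb.2 ⟨h1.1, h1.2.2.symm⟩⟩
      rcases Nat.lt_or_ge (D G N u) 2 with h5 | h5
      · refine TD1_three h1.2.1 ?_ ?_ (by omega : 2 ≤ D G N v)
        · simp only [Finset.mem_union, Finset.mem_filter, Finset.mem_univ, true_and]
          exact Or.inl hadj
        · intro y hy
          simp only [Finset.mem_union, Finset.mem_filter, Finset.mem_univ, true_and]
          exact Or.inr hy
      · refine TD1_three h1.1 ?_ ?_ h5
        · simp only [Finset.mem_union, Finset.mem_filter, Finset.mem_univ, true_and]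
          exact Or.inr hadj.symm
        · intro y hy
          simp only [Finset.mem_union, Finset.mem_filter, Finset.mem_univ, true_and]
          exact Or.inl hy
  · have h0 : ∀ N, phi1 G w u v N = 0 := by
      intro N
      unfold phi1
      rw [if_neg fun h => hadj h.2.2]
    have h1 : ∀ k, ∑ N ∈ mats G k, phi1 G w u v N = 0 := fun k => Finset.sum_eq_zero fun N _ => h0 N
    rw [h1, h1, mul_zero, mul_zero]

theorem phi2_growth {r n : ℕ} (hr : 2 ≤ r) (hV : Fintype.card V = 2 * n) (hreg : Reg G r)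
    {w : ℕ → ℝ} (hw : ∀ a, w (a + 1) ≤ w a) (v : V) (i : ℕ) :
    (4 * ((i : ℝ) + 1 - 2 * r + 3) - r * (2 * ((n : ℝ) - (i + 1)) - 3)) *
        ∑ N ∈ mats G (i + 1), phi2 G w v N ≤
      2 * (2 * ((n : ℝ) - (i + 1)) - 1) * ∑ N ∈ mats G i, phi2 G w v N := by
  classical
  have hd' : (univ.filter fun y => G.Adj v y).card = r := by
    have h1 := hreg v
    rw [← h1]
  refine growth_local hV hreg (insert v (univ.filter fun y => G.Adj v y)) ?_
    (phi2 G w v) (phi2_nonneg hw v) ?_ ?_ i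
  · refine (Finset.card_insert_le _ _).trans ?_
    rw [hd']
    omega
  · intro k N hN x hx y hy hxy hxS hyS
    simp only [Finset.mem_insert, Finset.mem_filter, Finset.mem_univ, true_and, not_or] at hxS hyS
    refine TD1_phi2_eq ?_ (TD1_nb hxS.2 hyS.2)
    rw [mem_free_insert]
    exact ⟨fun h => h.1, fun h => ⟨h, fun h' => hxS.1 h'.symm, fun h' => hyS.1 h'.symm⟩⟩
  · intro k N hN hne
    have h1 : v ∈ free N := by
      by_contra h
      apply hne
      unfold phi2
      rw [if_neg h]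
    have h2 : ∑ a ∈ nb G N v, (((nb G N v).filter (fun b => G.Adj a b)).card : ℝ) ≠ 0 := by
      intro h
      apply hne
      unfold phi2
      rw [if_pos h1]
      have h3 : ∑ a ∈ nb G N v, (((nb G N v).filter (fun b => G.Adj a b)).card : ℝ) = 0 := h
      rw [h3, zero_mul]
    obtain ⟨a, ha, ha'⟩ := Finset.exists_ne_zero_of_sum_ne_zero h2
    have h4 : ((nb G N v).filter (fun b => G.Adj a b)).Nonempty := by
      rw [Finset.nonempty_iff_ne_empty]
      intro h
      apply ha'
      rw [h, Finset.card_empty, Nat.cast_zero]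
    obtain ⟨b, hb⟩ := h4
    rw [Finset.mem_filter, mem_nb] at hb
    rw [mem_nb] at ha
    have h5 : ({v, a, b} : Finset V) ⊆ free N ∩ insert v (univ.filter fun y => G.Adj v y) := by
      intro z hz
      simp only [Finset.mem_insert, Finset.mem_singleton] at hz
      simp only [Finset.mem_inter, Finset.mem_insert, Finset.mem_filter, Finset.mem_univ, true_and]
      rcases hz with rfl | rfl | rfl
      · exact ⟨h1, Or.inl rfl⟩
      · exact ⟨ha.1, Or.inr ha.2⟩
      · exact ⟨hb.1.1, Or.inr hb.1.2⟩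
    have h6 := Finset.card_le_card h5
    have h7 : ({v, a, b} : Finset V).card = 3 := Finset.card_eq_three.2 ⟨v, a, b, ha.2.ne, hb.1.2.ne, hb.2.ne, rfl⟩
    omega

theorem WW_growth {r n : ℕ} (hr : 2 ≤ r) (hV : Fintype.card V = 2 * n) (hreg : Reg G r)
    {w : ℕ → ℝ} (hw : ∀ a, w (a + 1) ≤ w a) (i : ℕ) :
    (4 * ((i : ℝ) + 1 - 2 * r + 3) - r * (2 * ((n : ℝ) - (i + 1)) - 3)) *
        ∑ N ∈ mats G (i + 1), WW G w N ≤
      2 * (2 * ((n : ℝ) - (i + 1)) - 1) * ∑ N ∈ mats G i, WW G w N := by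
  have h1 : ∀ k, ∑ N ∈ mats G k, WW G w N =
      ∑ u, ∑ v, ∑ N ∈ mats G k, phi1 G w u v N + ∑ v, ∑ N ∈ mats G k, phi2 G w v N := by
    intro k
    unfold WW
    rw [Finset.sum_add_distrib, Finset.sum_comm, Finset.sum_comm (s := mats G k)]
    congr 1
    refine Finset.sum_congr rfl fun u _ => ?_
    rw [Finset.sum_comm]
  have h2 : (4 * ((i : ℝ) + 1 - 2 * r + 3) - r * (2 * ((n : ℝ) - (i + 1)) - 3)) *
      ∑ u, ∑ v, ∑ N ∈ mats G (i + 1), phi1 G w u v N ≤
      2 * (2 * ((n : ℝ) - (i + 1)) - 1) * ∑ u, ∑ v, ∑ N ∈ mats G i, phi1 G w u v N := by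
    rw [Finset.mul_sum, Finset.mul_sum]
    refine Finset.sum_le_sum fun u _ => ?_
    rw [Finset.mul_sum, Finset.mul_sum]
    exact Finset.sum_le_sum fun v _ => phi1_growth hr hV hreg hw u v i
  have h3 : (4 * ((i : ℝ) + 1 - 2 * r + 3) - r * (2 * ((n : ℝ) - (i + 1)) - 3)) *
      ∑ v, ∑ N ∈ mats G (i + 1), phi2 G w v N ≤
      2 * (2 * ((n : ℝ) - (i + 1)) - 1) * ∑ v, ∑ N ∈ mats G i, phi2 G w v N := by
    rw [Finset.mul_sum, Finset.mul_sum]
    exact Finset.sum_le_sum fun v _ => phi2_growth hr hV hreg hw v i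
  rw [h1, h1]
  linarith

end

end Pool.Agent.Lib.MP_eeed5c_coN
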