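import Pool.Agent.Lib.MP_eeed5c_co_N.TB2
import Pool.Agent.Lib.MP_eeed5c_co_N.TD1

/-!
# Growth of the coefficients of `Dp` near the top

PROOF of `Dh_growth`. Write `r = R + 1`, `n = q r`, `S i j = ∑ N ∈ mats G i, WW G (ww R j) N ≥ 0` (`WW_nonneg`, `ww_anti`),
`k' = n + r - 4 - l` (a natural number, `l + 3 ≤ n`, `2 ≤ r`). By `Dp_coeff`:
`2 Dh l = r ∑_{(i,j) : i+j = k'+1} S i j` and `2 Dh (l+1) = r ∑_{(i,j) : i+j = k'} S i j`.
In the first sum the term `i = 0` is zero: `j = k' + 1 > R` (`ww_zero` gives `ww R j = 0`, hence `WW = 0`: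
`k' + 1 = n + r - 3 - l ≥ r`), so (`Finset.Nat.sum_antidiagonal_succ`) it is `∑_{(i,j) : i+j = k'} S (i+1) j`. It remains
to show for `i + j = k'`: `(n - r (l + 9/4)) S (i+1) j ≤ (l + 3/2) S i j`. If `j > R` both sides are zero (the right one
is `≥ 0`). If `n - r (l + 9/4) ≤ 0` it is trivial. Otherwise `q ≥ 3` and `i = k' - j ≥ n - l - 3`, so
`g := n - (i+1) ≤ l + 2` (real number). `WW_growth`:
`(4 (i + 1 - 2 r + 3) - r (2 g - 3)) S (i+1) j ≤ 2 (2 g - 1) S i j`.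
If `g ≥ 1` (integer!): `(l + 3/2) S i j ≥ 1/2 (2 g - 1) S i j ≥ 1/4 (4 (i+1-2r+3) - r (2g-3)) S (i+1) j` and
`1/4 (4 (n - g - 2 r + 3) - r (2 g - 3)) ≥ n - (l + 2) - 2 r + 3 - (r/2)(l + 1/2) ≥ n - r (l + 9/4)` since `l ≤ r l / 2`.
If `g ≤ 0` the right side of `WW_growth` is `≤ 0` and the coefficient on the left is `> 0` (`q ≥ 3`), so `S (i+1) j = 0`.

`Dh_nonneg`: `Dp_nonneg`.
-/

set_option autoImplicit false

namespace Pool.Agent.Lib.MP_eeed5c_coN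

open Finset Pool.Agent.Lib.MP_eeed5c_co Pool.Agent.Lib.MP_eeed5c_coT Pool.Agent.Lib.MP_eeed5c_coU

section

variable {V : Type*} [Fintype V] {G : SimpleGraph V}

theorem Dp_coeff_nonneg {r q : ℕ} (hr : 2 ≤ r) (hV : Fintype.card V = 2 * (q * r))
    (hreg : Reg G r) (j : ℕ) : 0 ≤ (Dp r q G).coeff j := by
  obtain ⟨R, rfl⟩ : ∃ R, r = R + 1 := ⟨r - 1, by omega⟩
  exact Dp_nonneg hV hreg j

theorem Dh_nonneg {r q : ℕ} (hr : 2 ≤ r) (hV : Fintype.card V = 2 * (q * r)) (hreg : Reg G r)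
    (l : ℕ) : 0 ≤ Dh r q G l :=
  Dp_coeff_nonneg hr hV hreg _

private theorem TD2_WW_zero {w : ℕ → ℝ} (hw : ∀ a, w a = 0) (N : Finset (Sym2 V)) :
    WW G w N = 0 := by
  unfold WW phi1 phi2
  simp [hw]

private theorem TD2_arith {a b n g r l i : ℝ} (ha : 0 ≤ a) (hb : 0 ≤ b) (hr : 2 ≤ r)
    (hl : 0 ≤ l) (hg : g ≤ l + 2) (hi : i + 1 = n - g)
    (h : (4 * (i + 1 - 2 * r + 3) - r * (2 * g - 3)) * a ≤ 2 * (2 * g - 1) * b) :
    (n - r * (l + 9 / 4)) * a ≤ (l + 3 / 2) * b := by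
  have h1 : (2 * g - 1) * b ≤ (2 * l + 3) * b := mul_le_mul_of_nonneg_right (by linarith) hb
  have h2 : n - r * (l + 9 / 4) ≤ (4 * (i + 1 - 2 * r + 3) - r * (2 * g - 3)) / 4 := by
    have h3 : r * g ≤ r * (l + 2) := mul_le_mul_of_nonneg_left hg (by linarith)
    have h4 : 2 * l ≤ r * l := mul_le_mul_of_nonneg_right hr hl
    rw [hi]
    linarith
  have h3 := mul_le_mul_of_nonneg_right h2 ha
  linarith

private theorem TD2_arith0 {a b n g r l i : ℝ} (ha : 0 ≤ a) (hb : 0 ≤ b) (hr : 2 ≤ r)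
    (hl : 0 ≤ l) (hg : g ≤ 0) (hi : i + 1 = n - g)
    (h : (4 * (i + 1 - 2 * r + 3) - r * (2 * g - 3)) * a ≤ 2 * (2 * g - 1) * b) :
    (n - r * (l + 9 / 4)) * a ≤ (l + 3 / 2) * b := by
  have hR : 0 ≤ (l + 3 / 2) * b := mul_nonneg (by linarith) hb
  rcases le_or_gt (n - r * (l + 9 / 4)) 0 with h0 | h0
  · exact (mul_nonpos_of_nonpos_of_nonneg h0 ha).trans hR
  · have h1 : 2 * (2 * g - 1) * b ≤ 0 := mul_nonpos_of_nonpos_of_nonneg (by linarith) hb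
    have h2 : 0 < 4 * (i + 1 - 2 * r + 3) - r * (2 * g - 3) := by
      have h3 : r * g ≤ 0 := mul_nonpos_of_nonneg_of_nonpos (by linarith) hg
      have h4 : 0 ≤ r * l := mul_nonneg (by linarith) hl
      rw [hi]
      linarith
    have h3 : a ≤ 0 := by
      by_contra h4
      have h5 := mul_pos h2 (not_le.1 h4)
      linarith
    have h4 : a = 0 := le_antisymm h3 ha
    rw [h4, mul_zero]
    exact hR

theorem Dh_growth {r q l : ℕ} (hr : 2 ≤ r) (hV : Fintype.card V = 2 * (q * r)) (hreg : Reg G r)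
    (hl : l + 3 ≤ q * r) :
    (((q : ℝ) * r) - r * ((l : ℝ) + 9 / 4)) * Dh r q G l ≤ ((l : ℝ) + 3 / 2) * Dh r q G (l + 1) := by
  obtain ⟨R, rfl⟩ : ∃ R, r = R + 1 := ⟨r - 1, by omega⟩
  obtain ⟨k, hk⟩ : ∃ k, k + l + 4 = q * (R + 1) + (R + 1) :=
    ⟨q * (R + 1) + (R + 1) - 4 - l, by omega⟩
  have e1 : Dh (R + 1) q G l = (Dp (R + 1) q G).coeff (k + 1 + 1) := by
    unfold Dh
    congr 1
    omega
  have e2 : Dh (R + 1) q G (l + 1) = (Dp (R + 1) q G).coeff (k + 1) := by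
    unfold Dh
    congr 1
    omega
  have f1 := Dp_coeff hV hreg (k + 1)
  have f2 := Dp_coeff hV hreg k
  have hR1 : (0 : ℝ) ≤ (R : ℝ) + 1 := by positivity
  -- the first term vanishes
  have h0 : ∑ N ∈ mats G 0, WW G (ww R (k + 1)) N = 0 :=
    Finset.sum_eq_zero fun N _ => TD2_WW_zero (fun a => ww_zero (by omega)) N
  rw [Finset.Nat.sum_antidiagonal_succ] at f1
  simp only at f1
  rw [h0, zero_add] at f1
  rw [e1, e2]
  have hterm : ∀ p ∈ antidiagonal k,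
      (((q : ℝ) * (R + 1 : ℕ)) - (R + 1 : ℕ) * ((l : ℝ) + 9 / 4)) *
        ∑ N ∈ mats G (p.1 + 1), WW G (ww R p.2) N ≤
      ((l : ℝ) + 3 / 2) * ∑ N ∈ mats G p.1, WW G (ww R p.2) N := by
    rintro ⟨i, j⟩ hp
    rw [HasAntidiagonal.mem_antidiagonal] at hp
    simp only at hp ⊢
    by_cases hj : R < j
    · have hz : ∀ m, ∑ N ∈ mats G m, WW G (ww R j) N = 0 := fun m =>
        Finset.sum_eq_zero fun N _ => TD2_WW_zero (fun a => ww_zero hj) N
      rw [hz, hz, mul_zero, mul_zero]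
    · have hnn : ∀ m, 0 ≤ ∑ N ∈ mats G m, WW G (ww R j) N := fun m =>
        Finset.sum_nonneg fun N _ => WW_nonneg (ww_anti R j) N
      have hW := WW_growth (n := q * (R + 1)) hr hV hreg (ww_anti R j) i
      have hn : q * (R + 1) ≤ i + l + 3 := by omega
      have hn' : ((q * (R + 1) : ℕ) : ℝ) ≤ (i : ℝ) + l + 3 := by exact_mod_cast hn
      have hcast : ((q * (R + 1) : ℕ) : ℝ) = (q : ℝ) * (R + 1 : ℕ) := by push_cast; ring
      have hr' : (2 : ℝ) ≤ ((R + 1 : ℕ) : ℝ) := by exact_mod_cast hr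
      rw [hcast] at hW hn'
      rcases Nat.lt_or_ge (i + 1) (q * (R + 1)) with hi | hi
      · exact TD2_arith (g := (q : ℝ) * (R + 1 : ℕ) - ((i : ℝ) + 1)) (i := (i : ℝ)) (hnn _) (hnn _)
          hr' (Nat.cast_nonneg l) (by linarith) (by ring) hW
      · have hi' : (q : ℝ) * (R + 1 : ℕ) ≤ (i : ℝ) + 1 := by
          rw [← hcast]
          exact_mod_cast hi
        exact TD2_arith0 (g := (q : ℝ) * (R + 1 : ℕ) - ((i : ℝ) + 1)) (i := (i : ℝ)) (hnn _) (hnn _)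
          hr' (Nat.cast_nonneg l) (by linarith) (by ring) hW
  have hsum := Finset.sum_le_sum hterm
  rw [← Finset.mul_sum, ← Finset.mul_sum] at hsum
  have hfin := mul_le_mul_of_nonneg_left hsum hR1
  have g1 : (Dp (R + 1) q G).coeff (k + 1 + 1) =
      ((R : ℝ) + 1) * (∑ p ∈ antidiagonal k, ∑ N ∈ mats G (p.1 + 1), WW G (ww R p.2) N) / 2 := by
    linarith
  have g2 : (Dp (R + 1) q G).coeff (k + 1) =
      ((R : ℝ) + 1) * (∑ p ∈ antidiagonal k, ∑ N ∈ mats G p.1, WW G (ww R p.2) N) / 2 := by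
    linarith
  rw [g1, g2]
  linarith

end

end Pool.Agent.Lib.MP_eeed5c_coN
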